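import Pool.Agent.Helper49.HW.Defs2

/-!
# Derived quantities of a system of phases (MP_074879_pr)
-/

open Finset

namespace HW

namespace Sys
variable {f : ℝ → ℝ} (S : Sys f)

noncomputable def ε (j : ℕ) : ℝ := epsL (S.W j) (S.K j)
noncomputable def b (j : ℕ) : ℝ := S.ε j * 2 ^ S.e j
noncomputable def q (j : ℕ) : ℝ := qc (S.L j) (S.ε j) (S.b j)
noncomputable def τ (j : ℕ) : ℝ := S.θ j * S.b j
noncomputable def g (j : ℕ) : ℕ → ℝ := phCol (S.W j) (S.K j) (S.θ j) (S.e j) (S.L j)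
noncomputable def m (j : ℕ) : ℝ := ms (fun k => S.W j k + S.g j k) (S.K (j + 1)) (S.θ (j + 1))
noncomputable def cc (j : ℕ) : ℝ := ∏ i ∈ range j, S.m i
noncomputable def ss (j : ℕ) : ℝ := ∑ i ∈ range j, S.θ (i + 1)
/-- the colour `j` in the absolute scale -/
noncomputable def colA (j k : ℕ) : ℝ := S.cc j * Real.exp (S.ss j * ((k : ℝ) - 1)) * S.g j k
/-- the weights of the colours `< J` in the absolute scale -/
noncomputable def wA (J k : ℕ) : ℝ := S.W 0 k + ∑ i ∈ range J, S.colA i k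
noncomputable def nu (j n : ℕ) : ℝ := ((S.cc j)⁻¹) ^ n * Real.exp (S.ss j)

end Sys

end HW
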