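import Mathlib

/-!
# Height times width of conditioned Bienaymé trees: definitions (MP_074879_pr)
-/

open Finset

namespace HW

/-- A finite ordered forest: either empty, or a first tree (given by the forest `c` of the
subtrees of its root) followed by the remaining trees `s`. -/
inductive Forest : Type
  | nil : Forest
  | cons (c s : Forest) : Forest
deriving DecidableEq

namespace Forest

/-- number of trees of the forest -/
def len : Forest → ℕ
  | nil => 0
  | cons _ s => s.len + 1

/-- number of vertices -/
def vert : Forest → ℕ
  | nil => 0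
  | cons c s => c.vert + s.vert + 1

/-- number of nonempty levels (0 for the empty forest); the height of the tree with children
forest `F` is `F.ht` -/
def ht : Forest → ℕ
  | nil => 0
  | cons c s => max (c.ht + 1) s.ht

/-- number of vertices of the forest at distance exactly `k` from the roots -/
def lev : Forest → ℕ → ℕ
  | nil, _ => 0
  | cons _ s, 0 => s.lev 0 + 1
  | cons c s, k + 1 => c.lev k + s.lev (k + 1)

/-- product over the vertices of `w (number of children)` -/
def wt (w : ℕ → ℝ) : Forest → ℝ
  | nil => 1
  | cons c s => w c.len * c.wt w * s.wt w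

/-- depth first word of the numbers of children -/
def dfw : Forest → List ℕ
  | nil => []
  | cons c s => c.len :: (c.dfw ++ s.dfw)

/-- concatenation of forests -/
def app : Forest → Forest → Forest
  | nil, t => t
  | cons c s, t => cons c (s.app t)

/-- mirror image -/
def mir : Forest → Forest
  | nil => nil
  | cons c s => s.mir.app (cons c.mir nil)

end Forest

open Forest

/-! ### Words -/

/-- sum of `a - 1` over the letters -/
def stp (x : List ℕ) : ℤ := (x.map (fun a => (a : ℤ) - 1)).sum

/-- Łukasiewicz words: total `-1`, all proper prefixes have nonnegative sum -/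
def Luk (x : List ℕ) : Prop :=
  stp x = -1 ∧ ∀ i < x.length, 0 ≤ stp (x.take i)

/-- weighted sum over all words of length `N` with letters `< K`:
`E p K N F = ∑_x (∏ p (x_i)) * F x` -/
def E (p : ℕ → ℝ) (K : ℕ) : ℕ → (List ℕ → ℝ) → ℝ
  | 0, F => F []
  | N + 1, F => ∑ a ∈ range K, p a * E p K N (fun l => F (a :: l))

open Classical in
/-- weight of an event: `Pr p K N A = ∑_{x ∈ A} ∏ p (x_i)` -/
noncomputable def Pr (p : ℕ → ℝ) (K N : ℕ) (A : List ℕ → Prop) : ℝ :=
  E p K N (fun x => if A x then 1 else 0)

/-- `∑_i γ(x_i) ∏_{l ≠ i} p(x_l)` -/
def symsum (γ p : ℕ → ℝ) : List ℕ → ℝ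
  | [] => 0
  | a :: l => γ a * (l.map p).prod + p a * symsum γ p l

/-- trees with `n` vertices = forests with exactly one tree and `n` vertices -/
def treeSet (n : ℕ) : Set Forest := {T | T.len = 1 ∧ T.vert = n}

open Classical in
/-- the finite set of the trees with `n` vertices (`∅` if the set were infinite, see
`finite_treeSet`) -/
noncomputable def trees (n : ℕ) : Finset Forest :=
  if h : (treeSet n).Finite then h.toFinset else ∅

open Classical in
/-- total weight of the trees with `n` vertices in the event `A` -/
noncomputable def TS (n : ℕ) (w : ℕ → ℝ) (A : Forest → Prop) : ℝ :=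
  ∑ T ∈ trees n, if A T then T.wt w else 0

open Classical in
/-- total weight of the pairs (tree with `n` vertices in `A`, vertex), the degree of the
distinguished vertex being weighted by `γ` and the others by `p` -/
noncomputable def TM (n : ℕ) (γ p : ℕ → ℝ) (A : Forest → Prop) : ℝ :=
  ∑ T ∈ trees n, if A T then symsum γ p T.dfw else 0

/-- width of a forest -/
def wid (T : Forest) : ℕ := (range T.vert).sup T.lev

/-- height of a tree (edges), `T` being a forest with one tree -/
def hei (T : Forest) : ℕ := T.ht - 1

/-- maximal increment of the partial sums of `y` is larger than `c` -/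
def Incr (y : List ℕ) (c : ℤ) : Prop :=
  ∃ s t, s ≤ t ∧ t ≤ y.length ∧ c < stp (y.take t) - stp (y.take s)

/-- `y` starts with a forest word one of whose trees has height `≥ h` (i.e. `ht > h`) -/
def TallR (y : List ℕ) (h : ℕ) : Prop :=
  ∃ F : Forest, F.dfw <+: y ∧ h < F.ht

/-- `y` starts with the word of a forest of `r` trees all of height `< h` (i.e. `ht ≤ h`) -/
def ShortR (y : List ℕ) (r h : ℕ) : Prop :=
  ∃ F : Forest, F.dfw <+: y ∧ F.len = r ∧ F.ht ≤ h

open Classical in
/-- number of nonempty suffixes of `y` all of whose prefixes have nonnegative sum -/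
noncomputable def nns (y : List ℕ) : ℕ :=
  ((range y.length).filter (fun i => ∀ j ≤ (y.drop i).length, 0 ≤ stp ((y.drop i).take j))).card

/-- distribution function of the height of a Bienaymé tree: `hq p K h = P(height < h)` -/
def hq (p : ℕ → ℝ) (K : ℕ) : ℕ → ℝ
  | 0 => 0
  | h + 1 => ∑ k ∈ range K, p k * (hq p K h) ^ k

end HW
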