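import Pool.Agent.Helper49.HW.Defs

/-!
# Laws, tilts, phases: definitions (MP_074879_pr)
-/

open Finset

namespace HW

/-- `w` is a probability law carried by `{0, ..., K-1}` -/
structure IsLaw (w : ℕ → ℝ) (K : ℕ) : Prop where
  nonneg : ∀ k, 0 ≤ w k
  supp : ∀ k, K ≤ k → w k = 0
  one : ∑ k ∈ range K, w k = 1

/-- truncated drift `∑_{k ≤ x} (1-k) w k` -/
noncomputable def Dp (w : ℕ → ℝ) (x : ℕ) : ℝ := ∑ k ∈ range (x + 1), (1 - (k : ℝ)) * w k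

/-- truncated second moment `∑_{2 ≤ k ≤ x} (k-1)^2 w k` -/
noncomputable def Vp (w : ℕ → ℝ) (x : ℕ) : ℝ := ∑ k ∈ Ico 2 (x + 1), ((k : ℝ) - 1) ^ 2 * w k

/-- `∑ w k e^{-s(k-1)}` -/
noncomputable def ms (w : ℕ → ℝ) (K : ℕ) (s : ℝ) : ℝ :=
  ∑ k ∈ range K, w k * Real.exp (-s * ((k : ℝ) - 1))

/-- the derivative of `ms`: `∑ (1-k) w k e^{-s(k-1)}` -/
noncomputable def Fs (w : ℕ → ℝ) (K : ℕ) (s : ℝ) : ℝ :=
  ∑ k ∈ range K, (1 - (k : ℝ)) * w k * Real.exp (-s * ((k : ℝ) - 1))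

/-- `∑_{k ≥ 2} (k-1)^2 w k e^{-s(k-1)}` -/
noncomputable def S2 (w : ℕ → ℝ) (K : ℕ) (s : ℝ) : ℝ :=
  ∑ k ∈ Ico 2 K, ((k : ℝ) - 1) ^ 2 * w k * Real.exp (-s * ((k : ℝ) - 1))

/-- the drift (deficit) of a law: `1 - mean` -/
noncomputable def epsL (w : ℕ → ℝ) (K : ℕ) : ℝ := ∑ k ∈ range K, (1 - (k : ℝ)) * w k

/-- the law has a slowly varying truncated drift -/
def Reg (w : ℕ → ℝ) : Prop := ∀ x : ℕ, 1 ≤ x → Vp w x ≤ 1 / 500 * x * Dp w x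

/-- exponential tilt -/
noncomputable def tilt (w : ℕ → ℝ) (K : ℕ) (s : ℝ) (k : ℕ) : ℝ :=
  w k * Real.exp (-s * ((k : ℝ) - 1)) / ms w K s

/-- height of the colour weights, `b` = scale of the big vertex -/
noncomputable def qc (L : ℕ) (ε b : ℝ) : ℝ := ε / (L * (8 * 2 ^ L * b) ^ 2)

/-- soft start -/
noncomputable def soft (θ b x : ℝ) : ℝ := θ / (2 * b) * (max (4 * b - x) 0) ^ 2

/-- weights of the big vertex of a phase -/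
noncomputable def col (L : ℕ) (ε b θ : ℝ) (k : ℕ) : ℝ :=
  if b < k ∧ (k : ℝ) ≤ 8 * 2 ^ L * b then qc L ε b * Real.exp (-soft θ b k) else 0

/-- `∑_{a : 2^a ≤ b} 1 / D(2^a)` (order of the height of a forest of `b` trees) -/
noncomputable def hsum (w : ℕ → ℝ) (e : ℕ) (b : ℝ) : ℝ :=
  ∑ a ∈ range (e + 1), if (2 : ℝ) ^ a ≤ b then 1 / Dp w (2 ^ a) else 0

/-- `Φ = ε h`, the order of height × width / n -/
noncomputable def Phi (w : ℕ → ℝ) (K e : ℕ) : ℝ := epsL w K * hsum w e (epsL w K * 2 ^ e)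

/-- invariants of a phase: law `w` on `{0,...,K-1}`, last tilt `θ`, scale `n = 2^e`, `M = 2^L` -/
structure Inv (w : ℕ → ℝ) (K : ℕ) (θ : ℝ) (e L : ℕ) : Prop where
  L_ge : 1000 ≤ L
  L_le : L ^ 5 ≤ e
  law : IsLaw w K
  K_le : (K : ℝ) ≤ 8 * 2 ^ e + 1
  w0 : 9 / 20 + 1 / (e : ℝ) ≤ w 0
  w1 : 9 / 20 + 1 / (e : ℝ) ≤ w 1
  reg : Reg w
  θ_pos : 0 < θ
  θ_sq : θ ^ 2 * 2 ^ e ≤ 1
  v2 : Vp w K ≤ 7 / 500 * (epsL w K / θ)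
  tau : 9 / 10 * (L : ℝ) ≤ θ * (epsL w K * 2 ^ e)

/-- the colour of a phase -/
noncomputable def phCol (w : ℕ → ℝ) (K : ℕ) (θ : ℝ) (e L : ℕ) : ℕ → ℝ :=
  col L (epsL w K) (epsL w K * 2 ^ e) θ

/-- support bound of the next law -/
noncomputable def nextK (w : ℕ → ℝ) (K e L : ℕ) : ℕ :=
  max K (⌊8 * 2 ^ L * (epsL w K * 2 ^ e)⌋₊ + 1)

/-- the next law: add the colour and tilt by `θ'` -/
noncomputable def nextW (w : ℕ → ℝ) (K : ℕ) (θ : ℝ) (e L : ℕ) (θ' : ℝ) : ℕ → ℝ :=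
  tilt (fun k => w k + phCol w K θ e L k) (nextK w K e L) θ'

/-- A whole system of phases, adapted to the function `f`. -/
structure Sys (f : ℝ → ℝ) where
  e : ℕ → ℕ
  L : ℕ → ℕ
  W : ℕ → ℕ → ℝ
  K : ℕ → ℕ
  θ : ℕ → ℝ
  L_step : ∀ j, L (j + 1) = L j ∨ L (j + 1) = L j + 1
  L_tend : Filter.Tendsto L Filter.atTop Filter.atTop
  e_step : ∀ j, e (j + 1) = e j + L j
  inv : ∀ j, Inv (W j) (K j) (θ j) (e j) (L j)
  W_zero : ∀ k, W 0 k = if k < 2 then 1 / 2 else 0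
  K_step : ∀ j, K (j + 1) = nextK (W j) (K j) (e j) (L j)
  W_step : ∀ j, W (j + 1) = nextW (W j) (K j) (θ j) (e j) (L j) (θ (j + 1))
  rho : ∀ j, epsL (W (j + 1)) (K (j + 1)) ≤
    epsL (W j) (K j) * (θ (j + 1) * (epsL (W (j + 1)) (K (j + 1)) * 2 ^ (e (j + 1))))
  f_ge : ∀ j, 100 * (L j : ℝ) ^ 5 ≤ f (2 ^ (e j))
  f_le : ∀ j, 20 * f (2 ^ (e j)) ≤ e j
  f_near : ∀ j, ∀ x : ℝ, 2 ^ (e j) ≤ x → x ≤ 16 * 2 ^ (e (j + 1)) →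
    |Real.log (f x) - Real.log (f (2 ^ (e j)))| ≤ 1 / (100 * (L j : ℝ) ^ 4)
  Phi_ge : ∀ j, f (2 ^ (e j)) ≤ Phi (W j) (K j) (e j)
  Phi_le : ∃ J, ∀ j ≥ J, Phi (W j) (K j) (e j) ≤ 2 * f (2 ^ (e j))

end HW
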