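import Pool.Agent.Helper49.HW.Defs

/-!
# Conditioned Bienaymé trees: definitions used in the statement (MP_074879_pr)

A finite rooted plane tree is represented by the ordered forest (`HW.Forest`) of the subtrees of
its root.  For a forest, `len` is the number of trees, `vert` the number of vertices, `ht` the
number of levels and `lev k` the number of vertices at distance `k` from the roots.
-/

open Finset

namespace HW

/-- a finite rooted plane tree, given by the forest of the subtrees of its root -/
abbrev PTree : Type := Forest

/-- number of vertices -/
def treeSize (T : PTree) : ℕ := T.vert + 1

/-- height: the largest distance from the root to a vertex -/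
def treeHeight (T : PTree) : ℕ := T.ht

/-- number of vertices at distance exactly `k` from the root -/
def treeLevel (T : PTree) : ℕ → ℕ
  | 0 => 1
  | k + 1 => T.lev k

/-- width: the maximum over `k` of the number of vertices at distance `k` from the root -/
def treeWidth (T : PTree) : ℕ := (range (treeHeight T + 1)).sup (treeLevel T)

/-- probability that the `μ`-Bienaymé tree is equal to `T`: the product over all vertices of
`μ (number of children)` -/
noncomputable def treeProb (μ : ℕ → ℝ) (T : PTree) : ℝ := μ T.len * T.wt μ

/-- probability that the `μ`-Bienaymé tree has `n` vertices -/
noncomputable def sizeProb (μ : ℕ → ℝ) (n : ℕ) : ℝ :=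
  ∑' T : PTree, if treeSize T = n then treeProb μ T else 0

open Classical in
/-- conditional probability that the `μ`-Bienaymé tree belongs to `A`, given that it has `n`
vertices -/
noncomputable def condProb (μ : ℕ → ℝ) (n : ℕ) (A : PTree → Prop) : ℝ :=
  (∑' T : PTree, if treeSize T = n ∧ A T then treeProb μ T else 0) / sizeProb μ n

end HW
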