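import Pool.Agent.Helper49.HW.SysDefs
import Pool.Agent.Helper49.HW.SDefs
import Pool.Agent.Helper14.HW.N1
import Pool.Agent.Helper97.HW.A2
import Pool.Agent.Helper24.HW.N0

open Finset Filter Topology

namespace HW


namespace F2

theorem e_ge {f : ℝ → ℝ} (S : Sys f) (i : ℕ) : i + 4 ≤ S.e i := by
  induction i with
  | zero =>
    have h1 := (S.inv 0).L_ge
    have h2 := (S.inv 0).L_le
    have h3 : S.L 0 ≤ S.L 0 ^ 5 := Nat.le_self_pow (by norm_num) _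
    omega
  | succ k ih =>
    have h1 := (S.inv k).L_ge
    rw [S.e_step]
    omega

theorem sq_le_two_pow (e : ℕ) (h : 4 ≤ e) : e ^ 2 ≤ 2 ^ e := by
  induction e, h using Nat.le_induction with
  | base => norm_num
  | succ k hk ih =>
    have h1 : (k + 1) ^ 2 ≤ 2 * k ^ 2 := by nlinarith
    calc (k + 1) ^ 2 ≤ 2 * k ^ 2 := h1
      _ ≤ 2 * 2 ^ k := by omega
      _ = 2 ^ (k + 1) := by rw [pow_succ]; ring

theorem b_ge {f : ℝ → ℝ} (S : Sys f) (i : ℕ) : (i : ℝ) ≤ epsL (S.W i) (S.K i) * 2 ^ (S.e i) := by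
  obtain ⟨h0, h1, h8⟩ := Inv.eps_pow _ _ _ _ _ (S.inv i)
  set E := epsL (S.W i) (S.K i)
  have hp : (0 : ℝ) < 2 ^ (S.e i) := by positivity
  have hE2 : 1 ≤ E ^ 2 * 2 ^ (S.e i) := by
    have h1 : E ^ 8 ≤ E ^ 2 := pow_le_pow_of_le_one h0.le h1 (by norm_num)
    nlinarith
  have h2 : (2 : ℝ) ^ (S.e i) ≤ (E * 2 ^ (S.e i)) ^ 2 := by
    have : (E * 2 ^ (S.e i)) ^ 2 = (E ^ 2 * 2 ^ (S.e i)) * 2 ^ (S.e i) := by ring
    rw [this]; nlinarith
  have h3 : (i : ℝ) ^ 2 ≤ 2 ^ (S.e i) := by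
    have h4 := e_ge S i
    have h5 := sq_le_two_pow (S.e i) (by omega)
    have h6 : i ^ 2 ≤ 2 ^ (S.e i) := le_trans (Nat.pow_le_pow_left (by omega) 2) h5
    exact_mod_cast h6
  have h4 : 0 < E * 2 ^ (S.e i) := by positivity
  exact abs_le_of_sq_le_sq' (h3.trans h2) h4.le |>.2

theorem colA_zero {f : ℝ → ℝ} (S : Sys f) (i k : ℕ) (h : k ≤ i) : S.colA i k = 0 := by
  obtain ⟨_, _, _, h4, _⟩ := Inv.col_facts _ _ _ _ _ (S.inv i)
  have h5 : (k : ℝ) ≤ epsL (S.W i) (S.K i) * 2 ^ (S.e i) :=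
    le_trans (by exact_mod_cast h) (b_ge S i)
  have h6 : S.g i k = 0 := h4 k h5
  unfold Sys.colA
  rw [h6, mul_zero]

theorem wA_eq {f : ℝ → ℝ} (S : Sys f) (J k : ℕ) (h : k ≤ J) : S.wA J k = S.wA k k := by
  unfold Sys.wA
  congr 1
  symm
  apply Finset.sum_subset (Finset.range_subset_range.2 h)
  intro i _ hi
  simp only [Finset.mem_range, not_lt] at hi
  exact colA_zero S i k hi

theorem qc_le_one {f : ℝ → ℝ} (S : Sys f) (i : ℕ) :
    qc (S.L i) (epsL (S.W i) (S.K i)) (epsL (S.W i) (S.K i) * 2 ^ (S.e i)) ≤ 1 := by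
  obtain ⟨h0, h1, h8⟩ := Inv.eps_pow _ _ _ _ _ (S.inv i)
  set E := epsL (S.W i) (S.K i)
  have hL : (1000 : ℝ) ≤ S.L i := by exact_mod_cast (S.inv i).L_ge
  have hE2 : 1 ≤ E ^ 2 * 2 ^ (S.e i) := by
    have h2 : E ^ 8 ≤ E ^ 2 := pow_le_pow_of_le_one h0.le h1 (by norm_num)
    have hp : (0 : ℝ) < 2 ^ (S.e i) := by positivity
    nlinarith
  unfold qc
  have hp1 : (1 : ℝ) ≤ 2 ^ (S.L i) := one_le_pow₀ (by norm_num)
  have hp2 : (1 : ℝ) ≤ 2 ^ (S.e i) := one_le_pow₀ (by norm_num)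
  have h3 : 1 ≤ (E * 2 ^ (S.e i)) ^ 2 := by
    have : (E * 2 ^ (S.e i)) ^ 2 = (E ^ 2 * 2 ^ (S.e i)) * 2 ^ (S.e i) := by ring
    rw [this]; nlinarith
  have h4 : 1 ≤ (8 * 2 ^ (S.L i) * (E * 2 ^ (S.e i))) ^ 2 := by
    have : (8 * 2 ^ (S.L i) * (E * 2 ^ (S.e i))) ^ 2 =
      (8 * 2 ^ (S.L i)) ^ 2 * (E * 2 ^ (S.e i)) ^ 2 := by ring
    rw [this]
    have h5 : (1 : ℝ) ≤ (8 * 2 ^ (S.L i)) ^ 2 := by nlinarith
    nlinarith
  rw [div_le_one (by positivity)]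
  nlinarith

theorem wA_nonneg {f : ℝ → ℝ} (S : Sys f) (J k : ℕ) : 0 ≤ S.wA J k := by
  unfold Sys.wA
  have h1 := (S.inv 0).law.nonneg k
  have h2 : 0 ≤ ∑ i ∈ range J, S.colA i k := by
    apply Finset.sum_nonneg
    intro i _
    obtain ⟨h3, _⟩ := Inv.col_facts _ _ _ _ _ (S.inv i)
    have h4 := (S.cc_bounds i).1
    have h5 : 0 ≤ S.g i k := h3 k
    unfold Sys.colA
    positivity
  linarith

theorem wA_le {f : ℝ → ℝ} (S : Sys f) (k : ℕ) : S.wA k k ≤ 1 + 2 * k * Real.exp k := by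
  unfold Sys.wA
  have h1 : S.W 0 k ≤ 1 := by
    rw [S.W_zero]; split_ifs <;> norm_num
  have h2 : ∑ i ∈ range k, S.colA i k ≤ ∑ i ∈ range k, 2 * Real.exp k := by
    apply Finset.sum_le_sum
    intro i _
    obtain ⟨h3, h3', _⟩ := Inv.col_facts _ _ _ _ _ (S.inv i)
    have h4 := S.cc_bounds i
    have h5 := S.ss_bounds i
    have h6 : S.g i k ≤ 1 := le_trans (h3' k) (qc_le_one S i)
    have h6' : 0 ≤ S.g i k := h3 k
    have h7 : Real.exp (S.ss i * ((k : ℝ) - 1)) ≤ Real.exp k := by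
      apply Real.exp_le_exp.2
      have : (0 : ℝ) ≤ k := Nat.cast_nonneg k
      nlinarith
    have h8 : 0 < Real.exp (S.ss i * ((k : ℝ) - 1)) := Real.exp_pos _
    unfold Sys.colA
    calc S.cc i * Real.exp (S.ss i * ((k : ℝ) - 1)) * S.g i k
        ≤ S.cc i * Real.exp (S.ss i * ((k : ℝ) - 1)) * 1 :=
          mul_le_mul_of_nonneg_left h6 (by have := h4.1; positivity)
      _ ≤ 2 * Real.exp k := by
          rw [mul_one]
          exact mul_le_mul h4.2 h7 h8.le (by norm_num)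
  rw [Finset.sum_const, Finset.card_range, nsmul_eq_mul] at h2
  linarith

end F2

/-- F2: the limit weights and the offspring law -/
theorem exists_mu {f : ℝ → ℝ} (S : Sys f) :
    ∃ μ : ℕ → ℝ, (∀ k, 0 ≤ μ k) ∧ HasSum μ 1 ∧ 0 < μ 0 ∧ 0 < μ 1 ∧
      ∃ c s : ℝ, 0 < c ∧ ∀ n : ℕ, ∀ J ≥ n, ∀ A : Forest → Prop,
        TS n μ A = c ^ n * Real.exp s * TS n (S.wA J) A := by
  set v : ℕ → ℝ := fun k => Real.exp (-3 * ((k : ℝ) - 1)) * S.wA k k with hv
  have hv0 : ∀ k, 0 ≤ v k := fun k => mul_nonneg (Real.exp_pos _).le (F2.wA_nonneg S k k)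
  have hvle : ∀ k, v k ≤ Real.exp 3 * (Real.exp (-1 : ℝ) ^ k + 2 * ((k : ℝ) ^ 1 * Real.exp (-1 : ℝ) ^ k)) := by
    intro k
    have h1 := F2.wA_le S k
    have h2 : Real.exp (-3 * ((k : ℝ) - 1)) = Real.exp 3 * (Real.exp (-1 : ℝ) ^ k) ^ 3 := by
      rw [← Real.exp_nat_mul, ← Real.exp_nat_mul, ← Real.exp_add]; congr 1; push_cast; ring
    have h3 : Real.exp (k : ℝ) * Real.exp (-1 : ℝ) ^ k = 1 := by
      rw [← Real.exp_nat_mul, ← Real.exp_add]; simp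
    have h4 : 0 < Real.exp (-1 : ℝ) ^ k := by positivity
    have h5 : Real.exp (-1 : ℝ) ^ k ≤ 1 := pow_le_one₀ (Real.exp_pos _).le (by
      rw [Real.exp_le_one_iff]; norm_num)
    simp only [hv]
    rw [h2]
    have hk : (0 : ℝ) ≤ k := Nat.cast_nonneg k
    set y := Real.exp (-1 : ℝ) ^ k
    calc Real.exp 3 * y ^ 3 * S.wA k k ≤ Real.exp 3 * y ^ 3 * (1 + 2 * k * Real.exp k) :=
          mul_le_mul_of_nonneg_left h1 (by positivity)
      _ = Real.exp 3 * (y ^ 3 + 2 * k * y ^ 2 * (Real.exp k * y)) := by ring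
      _ = Real.exp 3 * (y ^ 3 + 2 * k * y ^ 2) := by rw [h3, mul_one]
      _ ≤ Real.exp 3 * (y + 2 * ((k : ℝ) ^ 1 * y)) := by
          apply mul_le_mul_of_nonneg_left _ (Real.exp_pos _).le
          have h6 : y ^ 2 ≤ y := by nlinarith
          have h7 : y ^ 3 ≤ y := by nlinarith
          have h8 : k * y ^ 2 ≤ k * y := mul_le_mul_of_nonneg_left h6 hk
          nlinarith
  have he1 : |Real.exp (-1 : ℝ)| < 1 := by
    rw [abs_of_pos (Real.exp_pos _), Real.exp_lt_one_iff]; norm_num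
  have hsum : Summable v := by
    apply Summable.of_nonneg_of_le hv0 hvle
    apply Summable.mul_left
    apply Summable.add
    · exact summable_geometric_of_abs_lt_one he1
    · apply Summable.mul_left
      exact summable_pow_mul_geometric_of_norm_lt_one 1 (by simpa using he1)
  have hw0 : 0 < S.wA 0 0 := by
    unfold Sys.wA; rw [S.W_zero]; simp
  have hw1 : 0 < S.wA 1 1 := by
    have h1 := F2.wA_nonneg S 1 1
    unfold Sys.wA
    rw [S.W_zero]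
    have h2 : 0 ≤ ∑ i ∈ range 1, S.colA i 1 := by
      apply Finset.sum_nonneg
      intro i _
      obtain ⟨h3, _⟩ := Inv.col_facts _ _ _ _ _ (S.inv i)
      have h4 := (S.cc_bounds i).1
      have h5 : 0 ≤ S.g i 1 := h3 1
      unfold Sys.colA
      positivity
    rw [Finset.sum_range_one] at h2 ⊢
    norm_num
    linarith
  have hv00 : 0 < v 0 := by simp only [hv]; positivity
  have hv01 : 0 < v 1 := by simp only [hv]; positivity
  set Z := ∑' k, v k with hZ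
  have hZpos : 0 < Z := hsum.tsum_pos hv0 0 hv00
  refine ⟨fun k => Z⁻¹ * v k, fun k => mul_nonneg (inv_nonneg.2 hZpos.le) (hv0 k), ?_,
    by positivity, by positivity, Z⁻¹, 3, by positivity, ?_⟩
  · have := hsum.hasSum.mul_left Z⁻¹
    rwa [← hZ, inv_mul_cancel₀ hZpos.ne'] at this
  · intro n J hJ A
    have h1 : (fun k => Z⁻¹ * v k) =
        fun k : ℕ => Z⁻¹ * Real.exp (-3 * ((k : ℝ) - 1)) * S.wA k k := by
      funext k; simp only [hv]; ring
    rw [h1, TS_scale n (fun k => S.wA k k) Z⁻¹ 3 A]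
    congr 1
    apply TS_congr
    intro k hk
    exact (F2.wA_eq S J k (by omega)).symm

end HW
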