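import Pool.Agent.Helper49.HW.F2
import Pool.Agent.Helper95.HW.F3
import Pool.Agent.Helper82.HW.R3
import Pool.Agent.Helper16.HW.N5

/-! Assembly of MP_074879_pr. -/

open Finset Filter Topology

namespace HW

/-- FINAL -/
theorem height_width_slowly_varying (f : ℝ → ℝ) (hpos : ∀ x > 0, 0 < f x) (hmeas : Measurable f)
    (hslow : ∀ lam > 0, Tendsto (fun x => f (lam * x) / f x) atTop (𝓝 1))
    (hinf : Tendsto (fun n : ℕ => f n) atTop atTop)
    (hlog : Tendsto (fun n : ℕ => f n / Real.log n) atTop (𝓝 0)) :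
    ∃ μ : ℕ → ℝ, (∀ k, 0 ≤ μ k) ∧ HasSum μ 1 ∧ (∀ n, 1 ≤ n → 0 < sizeProb μ n) ∧
      ∀ δ > 0, ∃ C > 0, ∀ n : ℕ, 2 ≤ n →
        1 - δ ≤ condProb μ n (fun T => (n * f n) / C ≤ treeHeight T * treeWidth T ∧
          (treeHeight T * treeWidth T : ℝ) ≤ C * (n * f n)) :=
  height_width_of (fun w K θ e L h L' a b G c d => Inv.step w K θ e L h L' a b G c d)
    (fun _ S => exists_mu S) (fun _ S j n J h1 h2 h3 h4 h5 h6 => S.main j n J h1 h2 h3 h4 h5 h6)
    f hpos hmeas hslow hinf hlog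

end HW
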